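import Pool.Agent.Lib.MP_dee342_nt.Ar2.Defs
import Pool.Agent.Lib.MP_dee342_nt.Ar.Seq

/-! Cuttings of a sequence into single steps and short descents. -/

namespace Pool.Agent.Lib.MP_dee342_nt.Ar

open Finset

/-- Every piece is a single step or a short descent. -/
def Cut (K : ℕ) (y : ℕ → ℤ) (u : ℕ → ℕ) : Prop :=
  ∀ i, u (i + 1) = u i + 1 ∨ Desc K y (u i) (u (i + 1))

variable {a K : ℕ} {y : ℕ → ℤ} {u : ℕ → ℕ}

theorem pieces_succ (a : ℕ) (e u : ℕ → ℕ) (n : ℕ) : pieces a e u (n + 1) = pieces a e u n +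
    if u (n + 1) = u n + 1 ∧ 2 ^ e (u n) < a ∧ e (u n + 1) = e (u n) then 0 else 1 := by
  simp only [pieces, card_filter, sum_range_succ, ite_not]

theorem pieces_zero (a : ℕ) (e u : ℕ → ℕ) : pieces a e u 0 = 0 := rfl

theorem pieces_mono (a : ℕ) (e u : ℕ → ℕ) : Monotone (pieces a e u) :=
  monotone_nat_of_le_succ fun n => by rw [pieces_succ]; omega

theorem Cut.lt (hu : Cut K y u) (i : ℕ) : u i < u (i + 1) :=
  (hu i).elim (fun h => by omega) fun h => h.1

theorem Cut.mono (hu : Cut K y u) : Monotone u :=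
  monotone_nat_of_le_succ fun n => (hu.lt n).le

/-- Every point lies above a cut point. -/
theorem Cut.low (hu : Cut K y u) (h0 : u 0 = 0) (n : ℕ) :
    ∀ i ≤ u n, ∃ j ≤ n, |y (u j)| ≤ |y i| := by
  induction n with
  | zero => exact fun i hi => ⟨0, le_rfl, by rw [show u 0 = i by omega]⟩
  | succ n ih =>
    intro i hi
    by_cases h1 : i ≤ u n
    · obtain ⟨j, h2, h3⟩ := ih i h1
      exact ⟨j, by omega, h3⟩
    · refine ⟨n + 1, le_rfl, (hu n).elim (fun h => ?_) fun h => h.2.2 i (by omega) hi⟩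
      rw [show u (n + 1) = i by omega]

theorem Cut.shift (hu : Cut K y u) (j : ℕ) :
    Cut K (fun i => y (u j + i)) fun i => u (j + i) - u j := by
  intro i
  have h1 : u j ≤ u (j + i) := hu.mono (Nat.le_add_right _ _)
  have h2 := hu.lt (j + i)
  rcases hu (j + i) with h | ⟨-, h3, h4⟩
  · left
    change u (j + i + 1) - u j = u (j + i) - u j + 1
    omega
  · right
    change Desc K _ (u (j + i) - u j) (u (j + i + 1) - u j)
    refine ⟨by omega, ?_, fun t h5 h6 => ?_⟩
    · rw [show u (j + i + 1) - u j - (u (j + i) - u j) = u (j + i + 1) - u (j + i) by omega]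
      simpa only [Nat.add_sub_cancel' h1] using h3
    · simpa only [Nat.add_sub_cancel' (h1.trans h2.le)] using h4 (u j + t) (by omega) (by omega)

theorem Cut.pieces_add (hu : Cut K y u) (a : ℕ) (e : ℕ → ℕ) (j n : ℕ) :
    pieces a e u (j + n) =
      pieces a e u j + pieces a (fun i => e (u j + i)) (fun i => u (j + i) - u j) n := by
  induction n with
  | zero => rfl
  | succ n ih =>
    have h1 : u j ≤ u (j + n) := hu.mono (Nat.le_add_right _ _)
    have h2 := hu.lt (j + n)
    have h3 : (u (j + n + 1) - u j = u (j + n) - u j + 1) ↔ u (j + n + 1) = u (j + n) + 1 := by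
      omega
    rw [← add_assoc, pieces_succ, pieces_succ, ih, add_assoc]
    simp only [← add_assoc, Nat.add_sub_cancel' h1, h3]

end Pool.Agent.Lib.MP_dee342_nt.Ar
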