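import Pool.Agent.Lib.MP_dee342_nt.Ar2.Lev

/-! The length of a cycle with few counted pieces. -/

namespace Pool.Agent.Lib.MP_dee342_nt.Ar

open Finset

theorem cycM {a K M k : ℕ} (ha : Odd a) (ha3 : 3 ≤ a) (y : ℕ → ℤ) (e : ℕ → ℕ) (he : ∀ i, 1 ≤ e i)
    (h : ∀ i, 2 ^ e i * y (i + 1) = a * y i + 1) {w : ℕ → ℕ} (hw0 : w 0 = 0) (hw : Cut K y w)
    (hk0 : 0 < k) (hk : ∀ i, w (i + M) = w i + k) (hy : ∀ i, y (i + k) = y i)
    (hek : ∀ i, e (i + k) = e i) (h2 : ∀ i, 2 ≤ |y i|) {R r Z i₀ : ℕ}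
    (hR : 10 ^ 7 * (a + 4) ^ 4 ≤ R) (hr : 60 * a ^ 3 * (r + 1) ≤ R) (hZ : R ^ 20 * 2 ^ R ^ 14 ≤ Z)
    (h0 : |y i₀| ≤ 2 ^ Z)
    (hq : ∀ N : Fin (R ^ 13) → ℕ, (∀ w, R ^ 20 * 2 ^ R ^ 14 ≤ N w) →
      (∀ w w', w < w' → 2 ^ R ^ 14 * N w ≤ N w') → (∀ w, BlkW a R (r + 1) (N w)) → False) :
    bb e k ≤ 4 * a ^ 2 * ((K + 1) * pieces a e w (2 * M) + 1) *
      ((4 * a) ^ ((K + 1) * pieces a e w (2 * M) / (r + 1) + R ^ 27) * Z) := by
  have hM : w M = k := by simpa [hw0] using hk 0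
  have h3 : y (i₀ % k) = y i₀ := Function.Periodic.map_mod_nat hy i₀
  obtain ⟨j, hj, h4⟩ := hw.low hw0 M (i₀ % k) ((Nat.mod_lt _ hk0).le.trans hM.ge)
  have h5 : ∀ i ≤ M, pieces a (fun i => e (w j + i)) (fun i => w (j + i) - w j) i ≤
      pieces a e w (2 * M) := fun i hi => by
    have h6 := hw.pieces_add a e j i
    have h7 : pieces a e w (j + i) ≤ pieces a e w (2 * M) := pieces_mono a e w (by omega)
    omega
  have h6 := lengthM ha ha3 ((4 * a) ^ ((K + 1) * pieces a e w (2 * M) / (r + 1) + R ^ 27) * Z) M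
    (fun i => y (w j + i)) (fun i => e (w j + i)) (fun i => h _)
    (u := fun i => w (j + i) - w j) (Nat.sub_self _) (hw.shift j) fun i hi => ⟨h2 _,
      (levelsM ha ha3 (fun i => y (w j + i)) (fun i => e (w j + i))
      (fun i => he _) (fun i => h _) (hw.shift j) hR hr hZ
      (by simpa using h4.trans (h3 ▸ h0)) hq).trans (pow_le_pow_right₀ one_le_two
        (Nat.mul_le_mul_right _ (Nat.pow_le_pow_right (by omega) (Nat.add_le_add_right
          (Nat.div_le_div_right (Nat.mul_le_mul_left _ (h5 i hi))) _))))⟩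
  have h7 : w (j + M) - w j = k := by rw [hk, Nat.add_sub_cancel_left]
  have h8 := bb_add e (w j) k
  have h9 := bb_add e k (w j)
  rw [show (fun i => e (k + i)) = e from funext fun i => by rw [add_comm, hek], add_comm k] at h9
  rw [h7] at h6
  have h10 := Nat.mul_le_mul_right
    ((4 * a) ^ ((K + 1) * pieces a e w (2 * M) / (r + 1) + R ^ 27) * Z) (Nat.mul_le_mul_left
    (4 * a ^ 2) (Nat.add_le_add_right (Nat.mul_le_mul_left (K + 1) (h5 M le_rfl)) 1))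
  omega

end Pool.Agent.Lib.MP_dee342_nt.Ar
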