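import Mathlib

/-! Short descents of an integer sequence, and the pieces of a cutting that are counted. -/

set_option autoImplicit false

namespace Pool.Agent.Lib.MP_dee342_nt

/-- The piece of `y` from `s` to `t` has at most `K log₂ |y s|` steps and ends at a least point. -/
def Desc (K : ℕ) (y : ℕ → ℤ) (s t : ℕ) : Prop :=
  s < t ∧ 2 ^ (t - s) ≤ |y s| ^ K ∧ ∀ i, s ≤ i → i ≤ t → |y t| ≤ |y i|

/-- The number of pieces from `u i` to `u (i + 1)`, `i < n`, other than the single steps with
`2 ^ e < a` that are followed by a step with the same exponent `e`. -/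
def pieces (a : ℕ) (e u : ℕ → ℕ) (n : ℕ) : ℕ :=
  ((Finset.range n).filter fun i =>
    ¬ (u (i + 1) = u i + 1 ∧ 2 ^ e (u i) < a ∧ e (u i + 1) = e (u i))).card

end Pool.Agent.Lib.MP_dee342_nt
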