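import Pool.Agent.Lib.MP_dee342_nt.Ar2.Bas

/-! Periodic extension of a cutting. -/

namespace Pool.Agent.Lib.MP_dee342_nt.Ar

open Finset

theorem ext_per {α : Type} (y : ℕ → α) {P : ℕ} (hy : ∀ i, y (i + P) = y i) (q i : ℕ) :
    y (i + q * P) = y i := by
  induction q with
  | zero => simp
  | succ q ih => rw [Nat.succ_mul, ← add_assoc, hy, ih]

theorem ext_succ {M : ℕ} (u : ℕ → ℕ) (hM : 0 < M) (hu0 : u 0 = 0) (i : ℕ) :
    u ((i + 1) % M) + (i + 1) / M * u M = u (i % M + 1) + i / M * u M := by
  have h1 := Nat.mod_lt i hM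
  have h2 := Nat.mod_add_div i M
  by_cases h : i % M + 1 = M
  · have h3 : i + 1 = M * (i / M + 1) := by rw [mul_add, mul_one]; omega
    rw [h, h3, Nat.mul_mod_right, hu0, Nat.mul_div_cancel_left _ hM, add_mul]
    omega
  · have h3 : i + 1 = i % M + 1 + M * (i / M) := by omega
    rw [h3, Nat.add_mul_mod_self_left, Nat.add_mul_div_left _ _ hM,
      Nat.mod_eq_of_lt (show i % M + 1 < M by omega),
      Nat.div_eq_of_lt (show i % M + 1 < M by omega), zero_add]

/-- `w i = u (i % M) + i / M * u M`. -/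
theorem cut_ext {a K M : ℕ} (y : ℕ → ℤ) (e u : ℕ → ℕ) (hM : 0 < M) (hu0 : u 0 = 0)
    (hy : ∀ i, y (i + u M) = y i) (he : ∀ i, e (i + u M) = e i)
    (hu : ∀ i < M, u (i + 1) = u i + 1 ∨ Desc K y (u i) (u (i + 1))) :
    ∃ w : ℕ → ℕ, w 0 = 0 ∧ Cut K y w ∧ (∀ i, w (i + M) = w i + u M) ∧
      pieces a e w (2 * M) = 2 * pieces a e u M := by
  refine ⟨fun i => u (i % M) + i / M * u M, by simp [hu0], fun i => ?_, fun i => ?_, ?_⟩
  · simp only [ext_succ u hM hu0]
    rcases hu (i % M) (Nat.mod_lt i hM) with h | ⟨h1, h2, h3⟩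
    · left
      omega
    · right
      refine ⟨by omega, ?_, fun t h4 h5 => ?_⟩
      · rwa [Nat.add_sub_add_right, ext_per y hy]
      · have := h3 (t - i / M * u M) (by omega) (by omega)
        rwa [← ext_per y hy (i / M) (t - _), Nat.sub_add_cancel (by omega),
          ← ext_per y hy (i / M)] at this
  · simp only [Nat.add_mod_right, Nat.add_div_right _ hM, add_mul, one_mul, add_assoc]
  · have key : ∀ q n, n ≤ M → pieces a e (fun i => u (i % M) + i / M * u M) (q * M + n) =
        pieces a e (fun i => u (i % M) + i / M * u M) (q * M) + pieces a e u n := by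
      intro q n hn
      induction n with
      | zero => rfl
      | succ n ih =>
        have h1 : (q * M + n) % M = n := by
          rw [add_comm, Nat.add_mul_mod_self_right, Nat.mod_eq_of_lt (by omega)]
        have h2 : ∀ x z : ℕ, x + z + 1 = x + 1 + z := fun x z => by omega
        rw [← add_assoc, pieces_succ, pieces_succ, ih (by omega), add_assoc]
        simp only [ext_succ u hM hu0, h1]
        simp only [h2, ext_per e he, Nat.add_right_cancel_iff]
    have a0 := key 0 M le_rfl
    have a1 := key 1 M le_rfl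
    rw [zero_mul, zero_add, pieces_zero, zero_add] at a0
    rw [one_mul, a0] at a1
    rw [two_mul, a1, two_mul]

end Pool.Agent.Lib.MP_dee342_nt.Ar
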