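import Pool.Agent.Lib.MP_dee342_nt.Ar2.Len0
import Pool.Agent.Lib.MP_dee342_nt.Ar.Len0

/-! The length of a segment with few counted pieces. -/

namespace Pool.Agent.Lib.MP_dee342_nt.Ar

open Finset

theorem len_run {a L : ℕ} (ha : Odd a) (y : ℕ → ℤ) (e : ℕ → ℕ)
    (h : ∀ i, 2 ^ e i * y (i + 1) = a * y i + 1) {u : ℕ → ℕ} {i k : ℕ}
    (hr : ∀ j, i ≤ j → j < i + k → u (j + 1) = u j + 1 ∧ 2 ^ e (u j) < a ∧ e (u j + 1) = e (u j))
    (h2 : 2 ≤ |y (u i)|) (hL : |y (u i)| ≤ 2 ^ L) :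
    bb e (u (i + k)) ≤ bb e (u i) + (a + 2) * L := by
  have hL1 : 1 ≤ L := by
    rcases Nat.eq_zero_or_pos L with rfl | h0
    · simp only [pow_zero] at hL; omega
    · exact h0
  have h1 : ∀ j ≤ k, u (i + j) = u i + j ∧ e (u i + j) = e (u i) := by
    intro j hj
    induction j with
    | zero => exact ⟨rfl, rfl⟩
    | succ j ih =>
      obtain ⟨i1, i2⟩ := ih (by omega)
      obtain ⟨r1, -, r3⟩ := hr (i + j) (by omega) (by omega)
      rw [i1] at r1 r3
      exact ⟨r1, r3.trans i2⟩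
  rcases Nat.eq_zero_or_pos k with rfl | hk
  · exact Nat.le_add_right _ _
  have h3 := len_rise ha (fun j => y (u i + j)) (fun j => e (u i + j)) (fun j => h (u i + j))
    (L := L) (k := k) (hr i le_rfl (by omega)).2.1 (fun j hj => (h1 j hj.le).2) h2 hL
  rw [(h1 k le_rfl).1, bb_add]
  nlinarith

/-- Invariant: there is `i₀ ≤ n` such that no piece from `i₀` to `n` is counted and
`bb e (u i₀) ≤ (a K + 2 a + 3) L * pieces a e u n`. On such a run `u (i₀ + j) = u i₀ + j`, the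
exponent is constant and `len_rise` (sequences shifted by `u i₀`, `bb_add`) bounds its halvings by
`L + a + 1 ≤ (a + 2) L`. A counted piece: `len_piece`, new `i₀ = n + 1`. -/
theorem lengthM {a K : ℕ} (ha : Odd a) (ha3 : 3 ≤ a) (L n : ℕ) (y : ℕ → ℤ) (e : ℕ → ℕ)
    (h : ∀ i, 2 ^ e i * y (i + 1) = a * y i + 1) {u : ℕ → ℕ} (hu0 : u 0 = 0) (hu : Cut K y u)
    (hL : ∀ i ≤ n, 2 ≤ |y (u i)| ∧ |y (u i)| ≤ 2 ^ L) :
    3 * bb e (u n) ≤ 4 * a ^ 2 * ((K + 1) * pieces a e u n + 1) * L := by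
  have key : ∀ m ≤ n, ∃ i ≤ m, (∀ j, i ≤ j → j < m →
      u (j + 1) = u j + 1 ∧ 2 ^ e (u j) < a ∧ e (u j + 1) = e (u j)) ∧
      bb e (u i) ≤ (a * K + 2 * a + 3) * L * pieces a e u m := by
    intro m hm
    induction m with
    | zero => exact ⟨0, le_rfl, fun j _ hj => absurd hj (by omega), by simp [hu0, bb]⟩
    | succ m ih =>
      obtain ⟨i, i1, i2, i3⟩ := ih (by omega)
      rw [pieces_succ]
      split_ifs with hc
      · refine ⟨i, by omega, fun j h1 h2 => ?_, i3⟩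
        rcases Nat.lt_succ_iff_lt_or_eq.1 h2 with h3 | rfl
        · exact i2 j h1 h3
        · exact hc
      · refine ⟨m + 1, le_rfl, fun j h1 h2 => absurd h2 (by omega), ?_⟩
        obtain ⟨k, rfl⟩ := Nat.exists_eq_add_of_le i1
        have a1 := len_run ha y e h i2 (hL i (by omega)).1 (hL i (by omega)).2
        have a2 := len_piece y e h hu (hL (i + k) (by omega)).1 (hL (i + k) (by omega)).2
          (hL (i + k + 1) hm).1
        nlinarith
  obtain ⟨i, i1, i2, i3⟩ := key n le_rfl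
  obtain ⟨k, rfl⟩ := Nat.exists_eq_add_of_le i1
  have a1 := len_run ha y e h i2 (hL i (by omega)).1 (hL i (by omega)).2
  have b1 : 3 * (a * K + 2 * a + 3) ≤ 4 * a ^ 2 * (K + 1) := by
    nlinarith [Nat.mul_le_mul_right (a * K) ha3, Nat.mul_le_mul_right a ha3]
  have b2 : 3 * (a + 2) ≤ 4 * a ^ 2 := by nlinarith
  have b3 := Nat.mul_le_mul_right (L * pieces a e u (i + k)) b1
  have b4 := Nat.mul_le_mul_right L b2
  nlinarith

end Pool.Agent.Lib.MP_dee342_nt.Ar
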