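import Pool.Agent.Lib.MP_dee342_nt.Ar2.Bas

/-! The number of halvings in one piece. -/

namespace Pool.Agent.Lib.MP_dee342_nt.Ar

open Finset

theorem len0_grow {a : ℕ} (y : ℕ → ℤ) (e : ℕ → ℕ)
    (h : ∀ i, 2 ^ e i * y (i + 1) = a * y i + 1) (s k : ℕ)
    (h1 : ∀ j < k, 1 ≤ |y (s + j)|) :
    (2 : ℤ) ^ bb e (s + k) * |y (s + k)| ≤ 2 ^ (bb e s + a * k) * |y s| := by
  induction k with
  | zero => simp
  | succ k ih =>
    have i1 := ih fun j hj => h1 j (by omega)
    have h5 : (a : ℤ) + 1 ≤ 2 ^ a := by exact_mod_cast Nat.lt_two_pow_self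
    have h3 : 2 ^ e (s + k) * |y (s + k + 1)| ≤ 2 ^ a * |y (s + k)| := by
      have h4 := abs_add_le (a * y (s + k)) 1
      rw [← h (s + k), abs_mul, abs_mul, abs_one, abs_pow, abs_two, Nat.abs_cast] at h4
      have h6 := h1 k (by omega)
      nlinarith
    rw [← add_assoc, bb_succ, pow_add]
    calc _ = (2 : ℤ) ^ bb e (s + k) * (2 ^ e (s + k) * |y (s + k + 1)|) := by ring
      _ ≤ 2 ^ bb e (s + k) * (2 ^ a * |y (s + k)|) := by gcongr
      _ = 2 ^ a * (2 ^ bb e (s + k) * |y (s + k)|) := by ring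
      _ ≤ 2 ^ a * (2 ^ (bb e s + a * k) * |y s|) := by gcongr
      _ = _ := by ring

/-- All points of the piece are nonzero, so `2 ^ e j |y (j + 1)| ≤ (a + 1) |y j| ≤ 2 ^ a |y j|`;
hence the halvings are at most `a * length + L`, and the length is `1` or at most `K L`. -/
theorem len_piece {a K L : ℕ} (y : ℕ → ℤ) (e : ℕ → ℕ)
    (h : ∀ i, 2 ^ e i * y (i + 1) = a * y i + 1) {u : ℕ → ℕ} (hu : Cut K y u) {i : ℕ}
    (h1 : 2 ≤ |y (u i)|) (h2 : |y (u i)| ≤ 2 ^ L) (h3 : 2 ≤ |y (u (i + 1))|) :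
    bb e (u (i + 1)) ≤ bb e (u i) + (a * K + a + 1) * L := by
  obtain ⟨k, hk⟩ := Nat.exists_eq_add_of_le (hu.lt i).le
  have hL : 1 ≤ L := by
    rcases L with _ | L
    · simp only [pow_zero] at h2
      omega
    · omega
  have h4 : (∀ j < k, 1 ≤ |y (u i + j)|) ∧ k ≤ (K + 1) * L := by
    rcases hu i with h5 | ⟨-, h5, h6⟩
    · refine ⟨fun j hj => ?_, by nlinarith⟩
      rw [show u i + j = u i by omega]
      omega
    · refine ⟨fun j hj => ?_, ?_⟩
      · have := h6 (u i + j) (by omega) (by omega)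
        omega
      · rw [show u (i + 1) - u i = k by omega] at h5
        have h7 : |y (u i)| ^ K ≤ (2 ^ L) ^ K := by gcongr
        rw [← pow_mul] at h7
        have h8 := (pow_le_pow_iff_right₀ one_lt_two).1 (h5.trans h7)
        nlinarith
  have h5 := len0_grow y e h (u i) k h4.1
  rw [← hk] at h5
  have h6 : (2 : ℤ) ^ bb e (u (i + 1)) ≤ 2 ^ (bb e (u i) + a * k + L) := by
    have h7 : (0 : ℤ) < 2 ^ bb e (u (i + 1)) := by positivity
    rw [pow_add _ _ L]
    exact le_trans (by nlinarith) (h5.trans (by gcongr))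
  have h7 := (pow_le_pow_iff_right₀ one_lt_two).1 h6
  nlinarith [Nat.mul_le_mul_left a h4.2]

end Pool.Agent.Lib.MP_dee342_nt.Ar
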