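import Pool.Agent.Lib.MP_dee342_nt.Ar2.Bas

/-! The constant of one piece. -/

namespace Pool.Agent.Lib.MP_dee342_nt.Ar

open Finset

/-- Induction on `t'` from `s` to `t`: the identity at `t'` with
`|C| a ^ (t - t') 2 ^ bb e s ≤ 3 (t' - s) W 2 ^ bb e t`; the step is
`C' = a C + c t' 2 ^ (bb e t' - bb e s)` and uses `hp (t' + 1)`. -/
theorem piece {a : ℕ} (e : ℕ → ℕ) (D c : ℕ → ℤ) (W : ℤ)
    (hD : ∀ i, 2 ^ e i * D (i + 1) = a * D i + c i) (hc : ∀ i, |c i| ≤ W * 2 ^ e i) {s t : ℕ}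
    (hst : s ≤ t) (hp : ∀ i, s ≤ i → i ≤ t → a ^ (t - i) * 2 ^ bb e i ≤ 3 * 2 ^ bb e t) :
    ∃ C : ℤ, 2 ^ bb e t * D t = a ^ (t - s) * (2 ^ bb e s * D s) + C * 2 ^ bb e s ∧
      |C| ≤ 3 * (t - s : ℕ) * W * 2 ^ (bb e t - bb e s) := by
  have hW : 0 ≤ W := nonneg_of_mul_nonneg_left ((abs_nonneg _).trans (hc 0)) (by positivity)
  have key : ∀ k, s + k ≤ t → ∃ C : ℤ,
      2 ^ bb e (s + k) * D (s + k) = a ^ k * (2 ^ bb e s * D s) + C * 2 ^ bb e s ∧
      |C| * a ^ (t - (s + k)) * 2 ^ bb e s ≤ 3 * k * W * 2 ^ bb e t := by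
    intro k
    induction k with
    | zero => exact fun _ => ⟨0, by simp, by simp⟩
    | succ k ih =>
      intro hk
      obtain ⟨C, h1, h2⟩ := ih (by omega)
      obtain ⟨d, hd⟩ := Nat.exists_eq_add_of_le (bb_mono e (Nat.le_add_right s k))
      have h3 : (a : ℤ) ^ (t - (s + k + 1)) * 2 ^ bb e (s + k + 1) ≤ 3 * 2 ^ bb e t := by
        exact_mod_cast hp (s + k + 1) (by omega) hk
      rw [show t - (s + k) = t - (s + k + 1) + 1 by omega, pow_succ] at h2
      rw [bb_succ, hd, pow_add, pow_add] at h3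
      rw [hd, pow_add] at h1
      refine ⟨a * C + c (s + k) * 2 ^ d, ?_, ?_⟩
      · rw [← add_assoc, bb_succ, pow_add, mul_assoc, hD, hd, pow_add]
        linear_combination (a : ℤ) * h1
      · have h4 : |a * C + c (s + k) * 2 ^ d| ≤ a * |C| + W * 2 ^ e (s + k) * 2 ^ d := by
          refine (abs_add_le _ _).trans ?_
          rw [abs_mul, abs_mul, Nat.abs_cast, abs_of_nonneg (a := (2 : ℤ) ^ d) (by positivity)]
          exact add_le_add le_rfl (mul_le_mul_of_nonneg_right (hc _) (by positivity))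
        have h5 := mul_le_mul_of_nonneg_right h4
          (by positivity : (0 : ℤ) ≤ a ^ (t - (s + k + 1)) * 2 ^ bb e s)
        have h6 := mul_le_mul_of_nonneg_left h3 hW
        rw [← add_assoc]
        push_cast
        linarith
  obtain ⟨k, rfl⟩ := Nat.exists_eq_add_of_le hst
  obtain ⟨C, h1, h2⟩ := key k le_rfl
  obtain ⟨d, hd⟩ := Nat.exists_eq_add_of_le (bb_mono e (Nat.le_add_right s k))
  refine ⟨C, by rwa [Nat.add_sub_cancel_left], ?_⟩
  rw [Nat.sub_self, pow_zero, mul_one, hd, pow_add] at h2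
  rw [Nat.add_sub_cancel_left, hd, Nat.add_sub_cancel_left]
  refine le_of_mul_le_mul_right ?_ (by positivity : (0 : ℤ) < 2 ^ bb e s)
  linarith

end Pool.Agent.Lib.MP_dee342_nt.Ar
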