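import Pool.Agent.Lib.MP_dee342_nt.Ar2.Size3
import Pool.Agent.Lib.MP_dee342_nt.Ar2.Piece

/-! The telescoped relation with one term for each counted piece. -/

namespace Pool.Agent.Lib.MP_dee342_nt.Ar

open Finset

/-- Induction on `n`. Multiply the identity by `a ^ (u (n + 1) - u n)`. A piece that is not counted
has `c = 0` and `e ≥ 1`. A counted piece gives a new term at the index `pieces a e u n`
(`Function.update`) with `v = u (n + 1)`, `β = bb e (u n)`, `E = bb e (u (n + 1)) - bb e (u n)` and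
`s = c (u n)` for a single step, `s = C` of `piece` (with `desc_pow`) for a descent. -/
theorem rep2 {a K N : ℕ} (y : ℕ → ℤ) (e : ℕ → ℕ) (he : ∀ i, 1 ≤ e i)
    (h : ∀ i, 2 ^ e i * y (i + 1) = a * y i + 1) {u : ℕ → ℕ} (hu0 : u 0 = 0) (hu : Cut K y u)
    (D c : ℕ → ℤ) (W : ℤ) (hD : ∀ i, 2 ^ e i * D (i + 1) = a * D i + c i)
    (hc0 : ∀ i, 2 ^ e i < a → e (i + 1) = e i → c i = 0) (hc : ∀ i, |c i| ≤ W * 2 ^ e i) (n : ℕ)
    (hN : u n ≤ N) (hlo : ∀ i ≤ n, (N : ℤ) ≤ |y (u i)|) :
    ∃ (v β E : ℕ → ℕ) (s : ℕ → ℤ),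
      2 ^ bb e (u n) * D (u n) =
        a ^ u n * D 0 + ∑ j ∈ range (pieces a e u n), s j * (a ^ (u n - v j) * 2 ^ β j) ∧
      (∀ j < pieces a e u n, v j ≤ u n ∧ β j + E j ≤ bb e (v j) ∧ |s j| ≤ 3 * N * W * 2 ^ E j) ∧
      ∑ j ∈ range (pieces a e u n), E j + n ≤ bb e (u n) + pieces a e u n := by
  have hW : 0 ≤ W := nonneg_of_mul_nonneg_left ((abs_nonneg _).trans (hc 0)) (by positivity)
  induction n with
  | zero =>
    exact ⟨fun _ => 0, fun _ => 0, fun _ => 0, fun _ => 0, by simp [pieces_zero, hu0, bb],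
      by simp [pieces_zero], by simp [pieces_zero]⟩
  | succ n ih =>
    have hlt := hu.lt n
    obtain ⟨v, β, E, s, h1, h2, h3⟩ := ih (by omega) fun i hi => hlo i (by omega)
    have hb : bb e (u n) + 1 ≤ bb e (u (n + 1)) := by
      have h4 := bb_mono e (show u n + 1 ≤ u (n + 1) from hlt)
      have h5 := he (u n)
      rw [bb_succ] at h4
      omega
    have hstep : ∀ C : ℤ, 2 ^ bb e (u (n + 1)) * D (u (n + 1)) =
        a ^ (u (n + 1) - u n) * (2 ^ bb e (u n) * D (u n)) + C * 2 ^ bb e (u n) →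
        2 ^ bb e (u (n + 1)) * D (u (n + 1)) = a ^ u (n + 1) * D 0 +
          (∑ j ∈ range (pieces a e u n), s j * (a ^ (u (n + 1) - v j) * 2 ^ β j) +
            C * 2 ^ bb e (u n)) := fun C hC => by
      have h5 : ∑ j ∈ range (pieces a e u n), s j * ((a : ℤ) ^ (u (n + 1) - v j) * 2 ^ β j) =
          a ^ (u (n + 1) - u n) *
            ∑ j ∈ range (pieces a e u n), s j * (a ^ (u n - v j) * 2 ^ β j) := by
        rw [mul_sum]
        refine sum_congr rfl fun j hj => ?_
        have h6 := (h2 j (mem_range.1 hj)).1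
        rw [show u (n + 1) - v j = u (n + 1) - u n + (u n - v j) by omega, pow_add]
        ring
      rw [hC, h1, h5, mul_add, ← mul_assoc, ← pow_add, Nat.sub_add_cancel hlt.le, add_assoc]
    have hone : u (n + 1) = u n + 1 → 2 ^ bb e (u (n + 1)) * D (u (n + 1)) =
        a ^ (u (n + 1) - u n) * (2 ^ bb e (u n) * D (u n)) + c (u n) * 2 ^ bb e (u n) :=
      fun h4 => by
        rw [h4, bb_succ, pow_add, mul_assoc, hD, Nat.add_sub_cancel_left]
        ring
    have hN1 : (1 : ℤ) ≤ N := by exact_mod_cast (show 1 ≤ N by omega)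
    by_cases hq : u (n + 1) = u n + 1 ∧ 2 ^ e (u n) < a ∧ e (u n + 1) = e (u n)
    · rw [pieces_succ, if_pos hq, add_zero]
      refine ⟨v, β, E, s, ?_, fun j hj => ⟨(h2 j hj).1.trans hlt.le, (h2 j hj).2⟩, by omega⟩
      rw [hstep _ (hone hq.1), hc0 _ hq.2.1 hq.2.2, zero_mul, add_zero]
    obtain ⟨C, h4, h5⟩ : ∃ C : ℤ, 2 ^ bb e (u (n + 1)) * D (u (n + 1)) =
        a ^ (u (n + 1) - u n) * (2 ^ bb e (u n) * D (u n)) + C * 2 ^ bb e (u n) ∧
        |C| ≤ 3 * N * W * 2 ^ (bb e (u (n + 1)) - bb e (u n)) := by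
      rcases hu n with h4 | ⟨-, -, h4⟩
      · refine ⟨_, hone h4, (hc _).trans ?_⟩
        rw [h4, bb_succ, Nat.add_sub_cancel_left]
        have h6 : (0 : ℤ) ≤ W * 2 ^ e (u n) := by positivity
        nlinarith
      · have h6 := hlo (n + 1) le_rfl
        have h7 : ((u (n + 1) - u n : ℕ) : ℤ) ≤ N := by
          exact_mod_cast (show u (n + 1) - u n ≤ N by omega)
        obtain ⟨C, h8, h9⟩ := piece e D c W hD hc hlt.le
          (desc_pow y e h (abs_pos.1 (by omega)) (h7.trans h6) h4)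
        exact ⟨C, h8, h9.trans (by gcongr)⟩
    rw [pieces_succ, if_neg hq]
    have hr : ∀ j ∈ range (pieces a e u n), j ≠ pieces a e u n := fun j hj => (mem_range.1 hj).ne
    refine ⟨fun j => if j = pieces a e u n then u (n + 1) else v j,
      fun j => if j = pieces a e u n then bb e (u n) else β j,
      fun j => if j = pieces a e u n then bb e (u (n + 1)) - bb e (u n) else E j,
      fun j => if j = pieces a e u n then C else s j, ?_, fun j hj => ?_, ?_⟩
    · rw [hstep C h4, sum_range_succ]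
      congr 2
      · exact sum_congr rfl fun j hj => by simp only [if_neg (hr j hj)]
      · simp only [if_true, Nat.sub_self, pow_zero, one_mul]
    · by_cases h6 : j = pieces a e u n
      · simp only [if_pos h6]
        exact ⟨le_rfl, by omega, h5⟩
      · simp only [if_neg h6]
        have h7 := h2 j (by omega)
        exact ⟨h7.1.trans hlt.le, h7.2⟩
    · rw [sum_range_succ, sum_congr rfl fun j hj => if_neg (hr j hj), if_pos rfl]
      change (range (pieces a e u n)).sum E + n ≤ _ at h3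
      omega

end Pool.Agent.Lib.MP_dee342_nt.Ar
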