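import Pool.Agent.Lib.MP_dee342_nt.Ar2.Size3

/-! The number of odd steps against the number of halvings. -/

namespace Pool.Agent.Lib.MP_dee342_nt.Ar

open Finset

/-- Induction on `n`; a descent costs the factor `3 ≤ a` by `desc_pow` at `i = s`. -/
theorem size2M {a K N : ℕ} (ha3 : 3 ≤ a) (y : ℕ → ℤ) (e : ℕ → ℕ)
    (h : ∀ i, 2 ^ e i * y (i + 1) = a * y i + 1) {u : ℕ → ℕ} (hu0 : u 0 = 0) (hu : Cut K y u)
    (n : ℕ) (hN : u n ≤ N) (hlo : ∀ i ≤ n, (N : ℤ) ≤ |y (u i)|) :
    a ^ u n ≤ 2 ^ bb e (u n) * a ^ n := by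
  induction n with
  | zero => simp [hu0, bb]
  | succ n ih =>
    have h1 := hu.lt n
    have h2 := ih (by omega) fun i hi => hlo i (by omega)
    have h3 := hlo (n + 1) le_rfl
    rcases hu n with h4 | h4
    · rw [h4, bb_succ, pow_succ, pow_succ, pow_add]
      calc a ^ u n * a ≤ 2 ^ bb e (u n) * a ^ n * a := by gcongr
        _ = 2 ^ bb e (u n) * 1 * (a ^ n * a) := by ring
        _ ≤ _ := by gcongr; exact Nat.one_le_two_pow
    · have h5 : y (u (n + 1)) ≠ 0 := by
        intro h0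
        rw [h0, abs_zero] at h3
        omega
      have h6 := desc_pow y e h h5 (le_trans (by exact_mod_cast (by omega)) h3) h4.2.2 (u n)
        le_rfl h1.le
      calc a ^ u (n + 1) = a ^ (u (n + 1) - u n) * a ^ u n := by
            rw [← pow_add, Nat.sub_add_cancel h1.le]
        _ ≤ a ^ (u (n + 1) - u n) * (2 ^ bb e (u n) * a ^ n) := by gcongr
        _ = a ^ (u (n + 1) - u n) * 2 ^ bb e (u n) * a ^ n := by ring
        _ ≤ 3 * 2 ^ bb e (u (n + 1)) * a ^ n := by gcongr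
        _ ≤ a * 2 ^ bb e (u (n + 1)) * a ^ n := by gcongr
        _ = _ := by ring

end Pool.Agent.Lib.MP_dee342_nt.Ar
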