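import Pool.Agent.Lib.MP_dee342_nt.Ar.Win
import Pool.Agent.Lib.MP_dee342_nt.Ar2.Rep
import Pool.Agent.Lib.MP_dee342_nt.Ar2.Size4
import Pool.Agent.Lib.MP_dee342_nt.Ar2.Len

/-! A climb with few counted pieces gives a weighted window. -/

namespace Pool.Agent.Lib.MP_dee342_nt.Ar

open Finset

theorem winM_sum {M : Type} [AddCommMonoid M] (f : ℕ → M) {J r : ℕ} (h : J ≤ r) :
    ∑ j : Fin (r + 1), (if (j : ℕ) < J then f j else 0) = ∑ j ∈ range J, f j := by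
  rw [Fin.sum_univ_eq_sum_range (fun j => if j < J then f j else 0), ← sum_filter]
  refine sum_congr (Finset.ext fun j => ?_) fun _ _ => rfl
  simp only [mem_filter, mem_range]
  omega

theorem windowM {a K : ℕ} (ha : Odd a) (ha3 : 3 ≤ a) (y : ℕ → ℤ) (e : ℕ → ℕ) (he : ∀ i, 1 ≤ e i)
    (h : ∀ i, 2 ^ e i * y (i + 1) = a * y i + 1) {u : ℕ → ℕ} (hu0 : u 0 = 0) (hu : Cut K y u)
    {R r l n : ℕ} (hR : 10 ^ 7 * (a + 4) ^ 4 ≤ R)
    (hr : 60 * a ^ 3 * (r + 1) ≤ R) (hl : R ^ 20 ≤ l) (hlo : ∀ i ≤ n, 2 ^ l ≤ |y (u i)|)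
    (hhi : ∀ i ≤ n, |y (u i)| ≤ 2 ^ (5 * a * l)) (h0 : |y 0| ≤ 2 ^ (l + a))
    (hn : 2 ^ (4 * a * l) ≤ |y (u n)|) (hJ : (K + 1) * pieces a e u n ≤ r) :
    BlkW a R (r + 1) (20 * a ^ 3 * (r + 1) * l) := by
  obtain ⟨w1, w2, w3, w4⟩ := win_num ha3 hR hr hl
  have a1 : a ≤ a ^ 3 := Nat.le_self_pow (by norm_num) a
  have l1 : 60 * a ^ 3 * (r + 1) ≤ l := hr.trans ((Nat.le_self_pow (by norm_num) R).trans hl)
  have l2 : 60 * a + 60 * r ≤ l := by nlinarith
  have y2 : ∀ i ≤ n, 2 ≤ |y (u i)| := fun i hi =>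
    (le_self_pow₀ one_le_two (by omega)).trans (hlo i hi)
  have b3 : 3 * bb e (u n) ≤ 20 * a ^ 3 * (r + 1) * l :=
    calc 3 * bb e (u n) ≤ 4 * a ^ 2 * ((K + 1) * pieces a e u n + 1) * (5 * a * l) :=
          lengthM ha ha3 _ n y e h hu0 hu fun i hi => ⟨y2 i hi, hhi i hi⟩
      _ ≤ 4 * a ^ 2 * (r + 1) * (5 * a * l) := by gcongr
      _ = _ := by ring
  have hJ' : pieces a e u n ≤ r := (Nat.le_mul_of_pos_left _ K.succ_pos).trans hJ
  have N1 : 2 * l ≤ 20 * a ^ 3 * (r + 1) * l := Nat.mul_le_mul_right _ (by nlinarith)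
  generalize 20 * a ^ 3 * (r + 1) * l = N at *
  have b1 : bb e (u n) ≤ N := by omega
  have n3 : 3 * u n ≤ N := by
    have := le_bb he (u n)
    omega
  have n1 : u n ≤ N := by omega
  have lo : ∀ i ≤ u n, 2 ^ l ≤ |y i| := fun i hi => by
    obtain ⟨j, k1, k2⟩ := hu.low hu0 n i hi
    exact (hlo j k1).trans k2
  have lo' : ∀ i ≤ u n, ((u n : ℕ) : ℤ) ≤ |y i| := fun i hi =>
    le_trans (by exact_mod_cast n1.trans w2) (lo i hi)
  have lo2 : ∀ i ≤ n, ((u n : ℕ) : ℤ) ≤ |y (u i)| := fun i hi => lo' _ (hu.mono hi)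
  have s1 := size1 (by omega) y e h (n := u n) fun i hi => lo' i hi.le
  have i1 := win_int (s1 (u n) le_rfl) (size2M ha3 y e h hu0 hu n le_rfl lo2) hn h0
  have i2 : l + a + 1 + l / 2 + pieces a e u n ≤ n := by
    by_contra hc
    have k1 : a * n ≤ a * (2 * l) := Nat.mul_le_mul_left _ (by omega)
    have k2 : 3 * l ≤ a * l := Nat.mul_le_mul_right _ ha3
    have k3 : 4 * a * l = 4 * (a * l) := by ring
    have k4 : a * (2 * l) = 2 * (a * l) := by ring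
    omega
  obtain ⟨Q, D, c, q1, q2, d1, d2, d3, d4⟩ := rep0 ha3 y e h
  obtain ⟨v, β, E, s, r1, r2, r3⟩ :=
    rep2 y e he h hu0 hu D c (Q * (a + 2)) d2 d3 d4 n le_rfl lo2
  have q1' : (1 : ℤ) ≤ Q := by exact_mod_cast q1
  have q2' : (Q : ℤ) ≤ (a : ℤ) ^ a := by exact_mod_cast q2
  have n3' : 3 * ((u n : ℕ) : ℤ) ≤ N := by exact_mod_cast n3
  have e1 : |(Q : ℤ) * y 0| = Q * |y 0| := by rw [abs_mul, abs_of_nonneg (by omega)]
  have e2 := abs_sub_abs_le_abs_sub (D 0) (Q * y 0)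
  have e3 := abs_sub_abs_le_abs_sub (Q * y 0) (D 0)
  rw [abs_sub_comm] at e3
  have e4 := d1 0
  have e5 := y2 0 (Nat.zero_le n)
  rw [hu0] at e5
  have D1 : |y 0| ≤ 2 * |D 0| := by nlinarith
  have W1 : a ^ a ≤ N * (a ^ a * (a + 2)) :=
    (Nat.le_mul_of_pos_right _ (by omega)).trans (Nat.le_mul_of_pos_left _ (by omega))
  have W2 : ∀ j < pieces a e u n, |s j| ≤ (N * (a ^ a * (a + 2)) : ℕ) * 2 ^ E j := fun j hj => by
    refine (r2 j hj).2.2.trans ?_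
    push_cast
    gcongr
  have D2 : |D 0| ≤ (N * (a ^ a * (a + 2)) : ℕ) * 2 ^ (l + a + 1) :=
    calc |D 0| ≤ Q * (2 * |y 0|) := by nlinarith
      _ ≤ (N * (a ^ a * (a + 2)) : ℕ) * (2 * 2 ^ (l + a)) := by
        gcongr
        exact q2.trans W1
      _ = _ := by ring
  have W0 : 1 ≤ N * (a ^ a * (a + 2)) := q1.trans (q2.trans W1)
  generalize N * (a ^ a * (a + 2)) = W at *
  generalize pieces a e u n = J at *
  refine ⟨Fin.cons (u n) fun j => if (j : ℕ) < J then u n - v j else 0,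
    Fin.cons 0 fun j => if (j : ℕ) < J then β j else 0,
    Fin.cons (l + a + 1) fun j => if (j : ℕ) < J then E j else 0, bb e (u n), l / 2,
    Fin.cons (D 0) fun j => if (j : ℕ) < J then s j else 0, (W : ℝ), fun j => ?_, b1, rfl,
    fun j => ?_, ?_, w1, by exact_mod_cast W0, w4, fun j => ?_, ⟨D (u n), ?_⟩, fun k => ?_,
    fun j => ?_⟩
  · refine Fin.cases n1 (fun j => ?_) j
    rw [Fin.cons_succ]
    split_ifs with k
    exacts [(Nat.sub_le _ _).trans n1, Nat.zero_le _]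
  · refine Fin.cases (show 0 + (l + a + 1) ≤ N by omega) (fun j => ?_) j
    rw [Fin.cons_succ, Fin.cons_succ]
    split_ifs with k
    exacts [(r2 j k).2.1.trans ((bb_mono e (r2 j k).1).trans b1), Nat.zero_le _]
  · rw [Fin.sum_univ_succ]
    simp only [Fin.cons_zero, Fin.cons_succ]
    rw [winM_sum E hJ']
    omega
  · refine Fin.cases ?_ (fun j => ?_) j
    · rw [Fin.cons_zero, Fin.cons_zero]
      exact_mod_cast D2
    rw [Fin.cons_succ, Fin.cons_succ]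
    split_ifs with k
    · exact_mod_cast W2 j k
    · simp
  · rw [Fin.sum_univ_succ, r1, ← winM_sum (fun j => s j * (a ^ (u n - v j) * 2 ^ β j)) hJ']
    simp only [Fin.cons_zero, Fin.cons_succ, pow_zero, mul_one]
    rw [mul_comm]
    congr 1
    refine sum_congr rfl fun j _ => ?_
    split_ifs
    exacts [rfl, zero_mul _]
  · rw [Fin.cons_zero] at k
    rw [k, abs_zero] at D1
    omega
  · refine Fin.cases (fun k => absurd rfl k) (fun j _ => ?_) j
    simp only [Fin.cons_zero, Fin.cons_succ]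
    split_ifs with k
    · have := win_dom (α := u n - v j) (W2 j k) (by positivity) (r2 j k).2.1 (s1 _ (r2 j k).1)
        (lo _ (r2 j k).1) D1 (by exact_mod_cast w3)
      rwa [Nat.sub_add_cancel (r2 j k).1] at this
    · rw [zero_mul, abs_zero, mul_zero]
      exact abs_nonneg _

end Pool.Agent.Lib.MP_dee342_nt.Ar
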