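import Pool.Agent.Lib.MP_dee342_nt.Ar.Lev
import Pool.Agent.Lib.MP_dee342_nt.Ar2.Win

/-! Counting the levels along the cut points. -/

namespace Pool.Agent.Lib.MP_dee342_nt.Ar

open Finset

theorem levM_one {a : ℕ} (ha3 : 3 ≤ a) {y : ℕ → ℤ}
    (h : ∀ {i m : ℕ}, |y i| ≤ 2 ^ m → |y (i + 1)| ≤ 2 ^ (m + a)) {L k : ℕ} (hL : 1 ≤ L)
    (h0 : |y 0| ≤ 2 ^ L)
    (hk : 2 ^ (4 * a * L) < |y k|) :
    ∃ s n : ℕ, s + n ≤ k ∧ 1 ≤ s ∧ (∀ i < s + n, |y i| ≤ 2 ^ (4 * a * L)) ∧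
      (∀ i < s + n, |y i| ≤ 2 ^ L → i < s) ∧ (∀ i ≤ n, 2 ^ L ≤ |y (s + i)|) ∧
      (∀ i ≤ n, |y (s + i)| ≤ 2 ^ (5 * a * L)) ∧ |y s| ≤ 2 ^ (L + a) ∧
      2 ^ (4 * a * L) < |y (s + n)| := by
  classical
  have hex : ∃ i, 2 ^ (4 * a * L) < |y i| := ⟨k, hk⟩
  have p : ∀ {u v : ℕ}, u ≤ v → (2 : ℤ) ^ u ≤ 2 ^ v := fun h => pow_le_pow_right₀ one_le_two h
  have hL4 : L ≤ 4 * a * L := Nat.le_mul_of_pos_left _ (by omega)
  have haL : a ≤ a * L := Nat.le_mul_of_pos_right _ hL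
  have t1 := Nat.find_spec hex
  have t2 : ∀ i < Nat.find hex, |y i| ≤ 2 ^ (4 * a * L) := fun i hi =>
    not_lt.1 (Nat.find_min hex hi)
  have t3 : Nat.find hex ≤ k := Nat.find_min' hex hk
  generalize Nat.find hex = t at t1 t2 t3
  obtain ⟨t, rfl⟩ : ∃ u, t = u + 1 := Nat.exists_eq_succ_of_ne_zero fun c =>
    absurd (h0.trans (p hL4)) (not_le.2 (c ▸ t1))
  have u1 : |y (Nat.findGreatest (fun i => |y i| ≤ 2 ^ L) t)| ≤ 2 ^ L :=
    Nat.findGreatest_spec (P := fun i => |y i| ≤ 2 ^ L) (Nat.zero_le t) h0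
  have u2 : ∀ i ≤ t, |y i| ≤ 2 ^ L → i ≤ Nat.findGreatest (fun i => |y i| ≤ 2 ^ L) t :=
    fun i hi c => Nat.le_findGreatest hi c
  obtain ⟨n, hn⟩ := Nat.exists_eq_add_of_le (Nat.findGreatest_le (P := fun i => |y i| ≤ 2 ^ L) t)
  generalize Nat.findGreatest (fun i => |y i| ≤ 2 ^ L) t = u at u1 u2 hn
  have e1 : u + 1 + n = t + 1 := by omega
  refine ⟨u + 1, n, by omega, by omega, e1 ▸ t2, fun i hi c => ?_, fun i hi => ?_, fun i hi => ?_,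
    h u1, e1 ▸ t1⟩
  · have := u2 i (by omega) c
    omega
  · rcases hi.lt_or_eq with c | rfl
    · by_contra c'
      have := u2 (u + 1 + i) (by omega) (not_le.1 c').le
      omega
    · exact e1 ▸ (p hL4).trans t1.le
  · rcases hi.lt_or_eq with c | rfl
    · exact (t2 _ (by omega)).trans (p (by nlinarith))
    · exact e1 ▸ (h (t2 t t.lt_succ_self)).trans (p (by nlinarith))

theorem levM_windows {a : ℕ} (ha3 : 3 ≤ a) (y : ℕ → ℤ)
    (h : ∀ {i m : ℕ}, |y i| ≤ 2 ^ m → |y (i + 1)| ≤ 2 ^ (m + a)) {Z H k : ℕ} (hZ : 2 ≤ Z)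
    (h0 : |y 0| ≤ 2 ^ Z)
    (hk : 2 ^ ((4 * a) ^ H * Z) < |y k|) :
    ∃ s n : ℕ → ℕ, ∀ w < H, s w + n w ≤ k ∧ (w + 1 < H → s w + n w ≤ s (w + 1)) ∧
      (∀ i ≤ n w, 2 ^ ((4 * a) ^ w * Z) ≤ |y (s w + i)|) ∧
      (∀ i ≤ n w, |y (s w + i)| ≤ 2 ^ (5 * a * ((4 * a) ^ w * Z))) ∧
      |y (s w)| ≤ 2 ^ ((4 * a) ^ w * Z + a) ∧
      2 ^ (4 * a * ((4 * a) ^ w * Z)) ≤ |y (s w + n w)| := by
  have p : ∀ {u v : ℕ}, u ≤ v → (2 : ℤ) ^ u ≤ 2 ^ v := fun h => pow_le_pow_right₀ one_le_two h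
  have e1 : ∀ w, (4 * a) ^ (w + 1) * Z = 4 * a * ((4 * a) ^ w * Z) := fun w => by ring
  have m : ∀ {u v : ℕ}, u ≤ v → (4 * a) ^ u * Z ≤ (4 * a) ^ v * Z := fun h =>
    Nat.mul_le_mul_right _ (Nat.pow_le_pow_right (by omega) h)
  have z : ∀ w, Z ≤ (4 * a) ^ w * Z := fun w => by simpa using m (Nat.zero_le w)
  choose! s n hs using fun w (hw : w < H) => levM_one ha3 (y := y) h
    (L := (4 * a) ^ w * Z) (k := k)
    (by have := z w; omega) (h0.trans (p (z w))) ((p (e1 w ▸ m hw)).trans_lt hk)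
  refine ⟨s, n, fun w hw => ?_⟩
  obtain ⟨a1, a2, a3, -, a5, a6, a7, a8⟩ := hs w hw
  refine ⟨a1, fun hw' => ?_, a5, a6, a7, a8.le⟩
  obtain ⟨-, -, -, b4, -, -, -, b8⟩ := hs (w + 1) hw'
  have c1 : s w + n w ≤ s (w + 1) + n (w + 1) := not_lt.1 fun c =>
    absurd ((a3 _ c).trans (p (e1 w ▸ e1 (w + 1) ▸ m (by omega)))) (not_le.2 b8)
  have := b4 (s w + n w - 1) (by omega) (e1 w ▸ a3 _ (by omega))
  omega

theorem levM_sum {K : ℕ} {y : ℕ → ℤ} {u : ℕ → ℕ} (hu : Cut K y u) (a : ℕ) (e : ℕ → ℕ)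
    {s n : ℕ → ℕ} {H k : ℕ}
    (hw : ∀ w < H, s w + n w ≤ k ∧ (w + 1 < H → s w + n w ≤ s (w + 1))) :
    ∑ w ∈ range H, pieces a (fun i => e (u (s w) + i)) (fun i => u (s w + i) - u (s w)) (n w) ≤
      pieces a e u k := by
  have h1 : ∀ v < H, ∑ w ∈ range (v + 1),
      pieces a (fun i => e (u (s w) + i)) (fun i => u (s w + i) - u (s w)) (n w) ≤
        pieces a e u (s v + n v) := by
    intro v
    induction v with
    | zero =>
      intro _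
      rw [sum_range_one, hu.pieces_add]
      exact Nat.le_add_left _ _
    | succ v ih =>
      intro hv
      rw [sum_range_succ, hu.pieces_add]
      exact Nat.add_le_add_right
        ((ih (by omega)).trans (pieces_mono a e u ((hw v (by omega)).2 hv))) _
  cases H with
  | zero => simp
  | succ v => exact (h1 v (by omega)).trans (pieces_mono a e u (hw v (by omega)).1)

theorem levelsM {a K : ℕ} (ha : Odd a) (ha3 : 3 ≤ a) (y : ℕ → ℤ) (e : ℕ → ℕ) (he : ∀ i, 1 ≤ e i)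
    (h : ∀ i, 2 ^ e i * y (i + 1) = a * y i + 1) {u : ℕ → ℕ} (hu : Cut K y u)
    {R r Z k : ℕ} (hR : 10 ^ 7 * (a + 4) ^ 4 ≤ R)
    (hr : 60 * a ^ 3 * (r + 1) ≤ R) (hZ : R ^ 20 * 2 ^ R ^ 14 ≤ Z) (h0 : |y (u 0)| ≤ 2 ^ Z)
    (hq : ∀ N : Fin (R ^ 13) → ℕ, (∀ w, R ^ 20 * 2 ^ R ^ 14 ≤ N w) →
      (∀ w w', w < w' → 2 ^ R ^ 14 * N w ≤ N w') → (∀ w, BlkW a R (r + 1) (N w)) → False) :
    |y (u k)| ≤ 2 ^ ((4 * a) ^ ((K + 1) * pieces a e u k / (r + 1) + R ^ 27) * Z) := by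
  by_contra hc
  have hR1 : 1 ≤ R := le_trans (Nat.succ_le_of_lt (by positivity)) hR
  have h14 : 1 ≤ R ^ 14 := Nat.one_le_pow _ _ hR1
  have h20 : 1 ≤ R ^ 20 := Nat.one_le_pow _ _ hR1
  have h2 : 2 ^ 1 ≤ 2 ^ R ^ 14 := Nat.pow_le_pow_right two_pos h14
  have hZ2 : 2 ≤ Z := le_trans (Nat.mul_le_mul h20 h2) hZ
  have hZ20 : R ^ 20 ≤ Z := le_trans (Nat.le_mul_of_pos_right _ (by positivity)) hZ
  have hl : ∀ w, Z ≤ (4 * a) ^ w * Z := fun w => Nat.le_mul_of_pos_left _ (by positivity)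
  obtain ⟨s, n, hw⟩ := levM_windows ha3 (fun i => y (u i)) (fun {i m} hi => by
    rcases hu i with k1 | k1
    · rw [k1]
      exact lev0_step he h hi
    · exact ((k1.2.2 _ le_rfl k1.1.le).trans hi).trans
        (pow_le_pow_right₀ one_le_two (Nat.le_add_right _ _))) hZ2 h0 (not_le.1 hc)
  have hcard := lev_card (fun w => (K + 1) *
      pieces a (fun i => e (u (s w) + i)) (fun i => u (s w + i) - u (s w)) (n w))
    ((mul_sum _ _ _).symm.trans_le (Nat.mul_le_mul_left _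
      (levM_sum hu a e fun w hw' => ⟨(hw w hw').1, (hw w hw').2.1⟩))) rfl
  obtain ⟨φ, hφ, hsep⟩ := exists_sepA _ (fun w => 20 * a ^ 3 * (r + 1) * ((4 * a) ^ w * Z))
    (fun w _ w' _ hlt => by
      have h3 : (4 * a) ^ (w + 1) ≤ (4 * a) ^ w' := Nat.pow_le_pow_right (by omega) hlt
      have h4 : 2 * (4 * a) ^ w ≤ (4 * a) ^ w' := by
        refine le_trans ?_ h3
        rw [pow_succ']
        exact Nat.mul_le_mul_right _ (by omega)
      rw [mul_left_comm, ← mul_assoc 2]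
      exact Nat.mul_le_mul_left _ (Nat.mul_le_mul_right _ h4))
    (R ^ 14) (R ^ 13) (by rw [← pow_add]; exact hcard) h14
  refine hq (fun w => 20 * a ^ 3 * (r + 1) * ((4 * a) ^ φ w * Z)) (fun w => ?_) hsep fun w => ?_
  · exact (hZ.trans (hl _)).trans (Nat.le_mul_of_pos_left _ (by positivity))
  · obtain ⟨h3, h4⟩ := mem_filter.1 (hφ w)
    obtain ⟨-, -, h5, h6, h7, h8⟩ := hw _ (mem_range.1 h3)
    have h9 : ∀ i, u (s (φ w)) + (u (s (φ w) + i) - u (s (φ w))) = u (s (φ w) + i) := fun i =>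
      Nat.add_sub_cancel' (hu.mono (Nat.le_add_right _ _))
    exact windowM ha ha3 (fun i => y (u (s (φ w)) + i)) (fun i => e (u (s (φ w)) + i))
      (fun i => he _) (fun i => h _) (u := fun i => u (s (φ w) + i) - u (s (φ w)))
      (Nat.sub_self _) (hu.shift (s (φ w))) (n := n (φ w)) hR hr
      (hZ20.trans (hl _)) (by simpa only [h9] using h5) (by simpa only [h9] using h6) h7
      (by simpa only [h9] using h8) h4

end Pool.Agent.Lib.MP_dee342_nt.Ar
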