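import Pool.Agent.Lib.MP_dee342_nt.Ar2.Cyc
import Pool.Agent.Lib.MP_dee342_nt.Ar2.Ext
import Pool.Agent.Lib.MP_dee342_nt.Ar.Sub
import Pool.Agent.Lib.MP_dee342_nt.Ar.Br
import Pool.Agent.Lib.MP_dee342_nt.Ar.Asym
import Pool.Agent.Lib.MP_dee342_nt.QAsym
import Pool.Agent.Lib.MP_dee342_nt.MinBound

/-! Cycles cut into ascending runs and short descents. -/

namespace Pool.Agent.Lib.MP_dee342_nt.Ar

open Finset Function Pool.Agent.Lib.MP_dee342_nt.Q

theorem mainM {a : ℕ} (ha : Odd a) (ha3 : 3 ≤ a) : ∃ C : ℝ,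
    ∀ (K M : ℕ) (y : ℤ) (u : ℕ → ℕ), Odd y → 0 < M → u 0 = 0 → (syr a)^[u M] y = y →
      (∀ i < M, u (i + 1) = u i + 1 ∨ Desc K (fun j => (syr a)^[j] y) (u i) (u (i + 1))) →
      Real.log (minimalPeriod (T a) y) ≤
        C * ((K + 1) * (pieces a (fun j => syrE a ((syr a)^[j] y)) u M : ℝ) + 1) ^
          (27 / 28 : ℝ) := by
  obtain ⟨C₀, -, hC₀⟩ := min_bound a ha ha3
  obtain ⟨C₁, hC₁⟩ := asym a ha3 C₀
  refine ⟨|C₁| * 2 + Real.log (minimalPeriod (T a) 1) +
    Real.log (minimalPeriod (T a) (-1)), fun K M y u hy hM hu0 hk hu => ?_⟩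
  have l1 := Real.log_natCast_nonneg (minimalPeriod (T a) 1)
  have l2 := Real.log_natCast_nonneg (minimalPeriod (T a) (-1))
  have ho : ∀ i, Odd ((syr a)^[i] y) := fun i => (syr_iter ha ha3 hy i).1
  have hyk : ∀ i, (syr a)^[i + u M] y = (syr a)^[i] y := fun i => by rw [iterate_add_apply, hk]
  obtain ⟨w, hw0, hw, hwk, hm⟩ := cut_ext (a := a) (fun j => (syr a)^[j] y)
    (fun j => syrE a ((syr a)^[j] y)) u hM hu0 hyk (fun i => by simp only [hyk]) hu
  have he : ∀ i, 1 ≤ syrE a ((syr a)^[i] y) := fun i => (syr_step ha ha3 (ho i)).2.1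
  have hk0 : 0 < u M := by
    have h1 := hwk 0
    have h2 := strictMono_nat_of_lt_succ hw.lt hM
    rw [zero_add] at h1
    omega
  have hb : IsPeriodicPt (T a) (bb (fun j => syrE a ((syr a)^[j] y)) (u M)) y :=
    (syr_iter ha ha3 hy (u M)).2.trans hk
  have hb0 := hk0.trans_le (le_bb he (u M))
  have hper : y ∈ periodicPts (T a) := ⟨_, hb0, hb⟩
  generalize pieces a (fun j => syrE a ((syr a)^[j] y)) u M = m at hm ⊢
  have m0 : (0 : ℝ) ≤ (K + 1) * m := by positivity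
  have m1 : (1 : ℝ) ≤ ((K + 1) * (m : ℝ) + 1) ^ (27 / 28 : ℝ) :=
    Real.one_le_rpow (by linarith) (by norm_num)
  have m2 := abs_nonneg C₁
  by_cases h2 : ∀ i, 2 ≤ |(syr a)^[i] y|
  · have h3 := hC₁ ((K + 1) * (2 * m)) (minimalPeriod (T a) y) fun R r Z hR hr hZ hp => by
      obtain ⟨t, -, h4⟩ := hC₀ y _ (minimalPeriod_pos_of_mem_periodicPts hper)
        (isPeriodicPt_minimalPeriod (T a) y)
      obtain ⟨i₀, h5⟩ := syr_le ha ha3 hy t
      have h6 : |(T a)^[t] y| ≤ 2 ^ Z := by exact_mod_cast h4.trans hp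
      have h7 : 10 ^ 7 ≤ R := (Nat.le_mul_of_pos_right _ (by positivity)).trans hR
      have h8 : 2 * (r + 1) ≤ 60 * a ^ 3 * (r + 1) :=
        Nat.mul_le_mul_right _ (by have := Nat.one_le_pow 3 a (by omega); omega)
      rw [← hm]
      refine (hb.minimalPeriod_le hb0).trans (cycM ha ha3 _ _ he (fun i => ?_) hw0 hw hk0 hwk hyk
        (fun i => by simp only [hyk]) h2 hR hr hZ (h5.trans h6) fun N k1 k2 k3 => ?_)
      · rw [iterate_succ_apply']
        exact (syr_step ha ha3 (ho i)).2.2.1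
      · refine qsubW ha hR (by omega) (Fintype.card_fin _) N
          (fun i => (Nat.mul_le_mul_left _ (om_le h7)).trans (k1 i)) (fun i j hij => ?_) k3
        exact (lt_or_gt_of_ne hij).imp
          (fun c => (Nat.mul_le_mul_right _ (om_le h7)).trans (k2 _ _ c))
          fun c => (Nat.mul_le_mul_right _ (om_le h7)).trans (k2 _ _ c)
    have h4 : ((((K + 1) * (2 * m) : ℕ) : ℝ) + 1) ^ (27 / 28 : ℝ) ≤
        2 * ((K + 1) * (m : ℝ) + 1) ^ (27 / 28 : ℝ) := by
      calc _ ≤ (2 * ((K + 1) * (m : ℝ) + 1)) ^ (27 / 28 : ℝ) := by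
            refine Real.rpow_le_rpow (by positivity) ?_ (by norm_num)
            push_cast
            linarith
        _ = (2 : ℝ) ^ (27 / 28 : ℝ) * ((K + 1) * (m : ℝ) + 1) ^ (27 / 28 : ℝ) :=
            Real.mul_rpow (by positivity) (by positivity)
        _ ≤ _ := mul_le_mul_of_nonneg_right
            (Real.rpow_le_self_of_one_le one_le_two (by norm_num)) (by positivity)
    have h5 := (h3.trans (mul_le_mul_of_nonneg_right (le_abs_self C₁) (by positivity))).trans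
      (mul_le_mul_of_nonneg_left h4 (abs_nonneg C₁))
    nlinarith
  · obtain ⟨i, hi⟩ := not_forall.1 h2
    have h3 := minimalPeriod_apply_iterate hper (bb (fun j => syrE a ((syr a)^[j] y)) i)
    rw [(syr_iter ha ha3 hy i).2] at h3
    have h4 := Int.odd_iff.1 (ho i)
    have h5 := abs_lt.1 (not_le.1 hi)
    have h6 : (syr a)^[i] y = 1 ∨ (syr a)^[i] y = -1 := by omega
    rw [← h3]
    rcases h6 with h6 | h6 <;> rw [h6] <;> nlinarith

end Pool.Agent.Lib.MP_dee342_nt.Ar
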