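import Pool.Agent.Lib.MP_dee342_nt.Ar2.Bas

/-! Lower bounds for the sizes along an orbit segment. -/

namespace Pool.Agent.Lib.MP_dee342_nt.Ar

open Finset

/-- Twin of `size1`: `a |y i| ≤ 2 ^ e i |y (i + 1)| + 1 ≤ 2 ^ e i |y (i + 1)| (1 + 1 / n)`. -/
theorem size3 {a : ℕ} (y : ℕ → ℤ) (e : ℕ → ℕ)
    (h : ∀ i, 2 ^ e i * y (i + 1) = a * y i + 1) {n : ℕ} (hn : ∀ i ≤ n, (n : ℤ) ≤ |y i|) :
    ∀ t ≤ n, (a : ℤ) ^ t * |y 0| ≤ 3 * 2 ^ bb e t * |y t| := by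
  have key : ∀ t ≤ n, (a : ℝ) ^ t * |(y 0 : ℝ)| ≤
      Real.exp (t / n) * 2 ^ bb e t * |(y t : ℝ)| := by
    intro t
    induction t with
    | zero => intro _; simp [bb]
    | succ t ih =>
      intro ht
      have hn0 : (0 : ℝ) < n := by exact_mod_cast (by omega : 0 < n)
      have h1 : (n : ℝ) ≤ |(y (t + 1) : ℝ)| := by exact_mod_cast hn (t + 1) ht
      have h2 : (2 : ℝ) ^ e t * (y (t + 1) : ℝ) = a * y t + 1 := by exact_mod_cast h t
      have h3 : a * |(y t : ℝ)| ≤ (2 : ℝ) ^ e t * |(y (t + 1) : ℝ)| + 1 := by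
        have := abs_sub ((2 : ℝ) ^ e t * (y (t + 1) : ℝ)) 1
        rw [show (2 : ℝ) ^ e t * (y (t + 1) : ℝ) - 1 = a * y t by linarith, abs_mul, abs_mul,
          abs_of_pos (by positivity : (0 : ℝ) < 2 ^ e t),
          abs_of_nonneg (by positivity : (0 : ℝ) ≤ a), abs_one] at this
        exact this
      have h0 : (1 : ℝ) ≤ 2 ^ e t := one_le_pow₀ one_le_two
      have h4 : 1 ≤ (2 : ℝ) ^ e t * |(y (t + 1) : ℝ)| * (1 / n) := by
        rw [mul_one_div, le_div_iff₀ hn0]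
        nlinarith
      have h5 : 1 / (n : ℝ) + 1 ≤ Real.exp (1 / n) := Real.add_one_le_exp _
      have h6 : a * |(y t : ℝ)| ≤ Real.exp (1 / n) * (2 ^ e t * |(y (t + 1) : ℝ)|) := by
        have : 0 ≤ (2 : ℝ) ^ e t * |(y (t + 1) : ℝ)| := by positivity
        nlinarith
      have h7 := ih (by omega)
      rw [bb_succ, pow_succ, pow_add, Nat.cast_succ, add_div, Real.exp_add]
      calc (a : ℝ) ^ t * a * |(y 0 : ℝ)| = a * (a ^ t * |(y 0 : ℝ)|) := by ring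
        _ ≤ a * (Real.exp (t / n) * 2 ^ bb e t * |(y t : ℝ)|) := by gcongr
        _ = Real.exp (t / n) * 2 ^ bb e t * (a * |(y t : ℝ)|) := by ring
        _ ≤ Real.exp (t / n) * 2 ^ bb e t *
            (Real.exp (1 / n) * (2 ^ e t * |(y (t + 1) : ℝ)|)) := by gcongr
        _ = _ := by ring
  intro t ht
  have h1 : Real.exp (t / n) ≤ 3 := by
    refine (Real.exp_le_exp.2 (div_le_one_of_le₀ (by exact_mod_cast ht) (by positivity))).trans ?_
    have := Real.exp_one_lt_d9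
    linarith
  have h2 : (a : ℝ) ^ t * |(y 0 : ℝ)| ≤ 3 * 2 ^ bb e t * |(y t : ℝ)| :=
    (key t ht).trans (by gcongr)
  exact_mod_cast h2

/-- `size3` for the sequences shifted by `i`, with `n = t - i`; `bb_add`; cancel `|y i| > 0`. -/
theorem desc_pow {a : ℕ} (y : ℕ → ℤ) (e : ℕ → ℕ)
    (h : ∀ i, 2 ^ e i * y (i + 1) = a * y i + 1) {s t : ℕ} (h0 : y t ≠ 0)
    (h1 : ((t - s : ℕ) : ℤ) ≤ |y t|) (h2 : ∀ i, s ≤ i → i ≤ t → |y t| ≤ |y i|) :
    ∀ i, s ≤ i → i ≤ t → a ^ (t - i) * 2 ^ bb e i ≤ 3 * 2 ^ bb e t := by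
  intro i hs ht
  obtain ⟨n, rfl⟩ := Nat.exists_eq_add_of_le ht
  have h3 := size3 (a := a) (fun j => y (i + j)) (fun j => e (i + j)) (fun j => h (i + j)) (n := n)
    (fun j hj => le_trans (le_trans (by exact_mod_cast (by omega : n ≤ i + n - s)) h1)
      (h2 (i + j) (by omega) (by omega))) n le_rfl
  simp only [add_zero] at h3
  have h4 := h2 i hs ht
  have h5 : 0 < |y i| := (abs_pos.2 h0).trans_le h4
  have h6 : (a : ℤ) ^ n ≤ 3 * 2 ^ bb (fun j => e (i + j)) n :=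
    le_of_mul_le_mul_right (h3.trans (by gcongr)) h5
  have h7 : a ^ n ≤ 3 * 2 ^ bb (fun j => e (i + j)) n := by exact_mod_cast h6
  rw [Nat.add_sub_cancel_left, bb_add, pow_add]
  calc a ^ n * 2 ^ bb e i ≤ 3 * 2 ^ bb (fun j => e (i + j)) n * 2 ^ bb e i := by gcongr
    _ = _ := by ring

end Pool.Agent.Lib.MP_dee342_nt.Ar
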